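import Pool.Agent.W622.BK.Stm

/-! Project BK (owner helper622), part EXS: the step for Ex. -/

set_option autoImplicit false

namespace Pool.Agent.W735.BK.EXS

open Module Pool.Agent.W622.BK

universe u

section
variable {k : Type u} [Field k] {E : Type u} [AddCommGroup E] [Module k E]

/-- evaluation of the first variable -/
noncomputable def evv {n : ℕ} (a : E) : G k E (n + 1) →ₗ[k] G k E n :=
  (LinearMap.applyₗ a) ∘ₗ (cur k E).toLinearMap

theorem evv_apply {n : ℕ} (a : E) (ω : G k E (n + 1)) : evv a ω = cur k E ω a := rfl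

theorem evv_add {n : ℕ} (a b : E) : evv (k := k) (n := n) (a + b) = evv a + evv b := by
  apply LinearMap.ext; intro ω
  rw [LinearMap.add_apply, evv_apply, evv_apply, evv_apply, map_add]

theorem evv_smul {n : ℕ} (c : k) (a : E) : evv (k := k) (n := n) (c • a) = c • evv a := by
  apply LinearMap.ext; intro ω
  rw [LinearMap.smul_apply, evv_apply, evv_apply, map_smul]

/-- `(e, e') ↦ cur (S e') e` -/
noncomputable def CS {n : ℕ} (S : E →ₗ[k] G k E (n + 1)) : E →ₗ[k] E →ₗ[k] G k E n :=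
  ((cur k E).toLinearMap ∘ₗ S).flip

theorem CS_apply {n : ℕ} (S : E →ₗ[k] G k E (n + 1)) (e e' : E) : CS S e e' = cur k E (S e') e := rfl

/-- `e' ↦ φ ∘ cc (S e')` -/
noncomputable def Bf {n : ℕ} (S : E →ₗ[k] G k E (n + 2)) (φ : G k E n →ₗ[k] k) :
    E →ₗ[k] E →ₗ[k] E →ₗ[k] k where
  toFun e' := (cc k E (S e')).compr₂ φ
  map_add' x y := by
    ext a e
    simp only [cc, LinearMap.compr₂_apply, LinearMap.comp_apply, LinearMap.add_apply,
      LinearEquiv.coe_coe, map_add]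
  map_smul' c x := by
    ext a e
    simp only [cc, LinearMap.compr₂_apply, LinearMap.comp_apply, LinearMap.smul_apply,
      LinearEquiv.coe_coe, map_smul, RingHom.id_apply]

theorem Bf_apply {n : ℕ} (S : E →ₗ[k] G k E (n + 2)) (φ : G k E n →ₗ[k] k) (e' a e : E) :
    Bf S φ e' a e = φ (cur k E (cur k E (S e') a) e) := rfl

/-- `a ↦ e ↦ e' ↦ φ (S' e' at a, e)` -/
noncomputable def Bg {n : ℕ} (S : E →ₗ[k] G k E (n + 2)) (φ : G k E n →ₗ[k] k) :
    E →ₗ[k] E →ₗ[k] E →ₗ[k] k :=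
  (LinearMap.lflip (R₀ := k)).toLinearMap ∘ₗ (Bf S φ).flip

theorem Bg_apply {n : ℕ} (S : E →ₗ[k] G k E (n + 2)) (φ : G k E n →ₗ[k] k) (a e e' : E) :
    Bg S φ a e e' = φ (cur k E (cur k E (S e') a) e) := rfl

/-- `a ↦ φ ∘ (P at a)` -/
noncomputable def Cf {n : ℕ} (P : E →ₗ[k] E →ₗ[k] G k E (n + 1)) (φ : G k E n →ₗ[k] k) :
    E →ₗ[k] E →ₗ[k] E →ₗ[k] k where
  toFun a := P.compr₂ (φ ∘ₗ evv a)
  map_add' x y := by
    ext a e
    simp only [LinearMap.compr₂_apply, LinearMap.comp_apply, LinearMap.add_apply, evv_add, map_add]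
  map_smul' c x := by
    ext a e
    simp only [LinearMap.compr₂_apply, LinearMap.comp_apply, LinearMap.smul_apply, evv_smul,
      map_smul, RingHom.id_apply]

theorem Cf_apply {n : ℕ} (P : E →ₗ[k] E →ₗ[k] G k E (n + 1)) (φ : G k E n →ₗ[k] k) (a e e' : E) :
    Cf P φ a e e' = φ (cur k E (P e e') a) := rfl

theorem InR_add {R : Submodule k (E →ₗ[k] E →ₗ[k] k)} {F : Type u} [AddCommGroup F] [Module k F]
    {T T' : E →ₗ[k] E →ₗ[k] F} (h : InR R T) (h' : InR R T') : InR R (T + T') := by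
  intro φ
  have e : (T + T').compr₂ φ = T.compr₂ φ + T'.compr₂ φ := by
    ext a b
    simp only [LinearMap.compr₂_apply, LinearMap.add_apply, map_add]
  rw [e]; exact R.add_mem (h φ) (h' φ)

end

theorem t_EXS : Pool.Agent.W622.BK.S_EXS.{u} := by
  intro hALT hMONO hNH hNKILL hCON hKIL hSEC k _ E _ _ R X u p hR hN hs1 hs2 hH
  intro T hT hC
  -- step 1
  have hTu : ∀ e e', (T.compr₂ (evv u)) e e' ∈ D R (Nn R X u) (p + 1) := by
    intro e e'
    rw [LinearMap.compr₂_apply, evv_apply]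
    exact hCON hALT k E R X u p (T e e') hR (hT e e')
  have hCu : ∀ φ : G k E p →ₗ[k] k,
      Cyc R (fun a e e' => φ (cur k E ((T.compr₂ (evv u)) e e') a)) := by
    intro φ
    have h := hC (-(φ ∘ₗ evv u))
    have e : (fun a e e' => φ (cur k E ((T.compr₂ (evv u)) e e') a)) =
        (fun a e e' => (-(φ ∘ₗ evv u)) (cur k E (T e e') a)) := by
      funext a e e'
      rw [LinearMap.compr₂_apply, evv_apply, LinearMap.neg_apply, LinearMap.comp_apply, evv_apply,
        (hALT k E R X p (T e e') hR (hT e e')).2 u a, map_neg]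
    rw [e]; exact h
  obtain ⟨S1, P1, hS1, hP1, hP1R, hTS⟩ := hN (T.compr₂ (evv u)) hTu hCu
  obtain ⟨σ2, hσ2⟩ := hSEC k E R X u (p + 2) hs2
  obtain ⟨σ1, hσ1⟩ := hSEC k E R X u (p + 1) hs1
  -- step 2
  let S' : E →ₗ[k] G k E (p + 3) := -(σ2 ∘ₗ S1)
  have hS' : ∀ e, S' e ∈ D R X (p + 3) := by
    intro e
    show -(σ2 (S1 e)) ∈ D R X (p + 3)
    exact Submodule.neg_mem _ (hσ2 _ (hS1 e)).1
  have hS'u : ∀ e, cur k E (S' e) u = - S1 e := by
    intro e
    show cur k E (-(σ2 (S1 e))) u = _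
    rw [map_neg, LinearMap.neg_apply, (hσ2 _ (hS1 e)).2]
  have hS'eu : ∀ e e', cur k E (cur k E (S' e') e) u = cur k E (S1 e') e := by
    intro e e'
    rw [(hALT k E R X (p + 1) (S' e') hR (hS' e')).2 e u, hS'u, map_neg, LinearMap.neg_apply, neg_neg]
  let P' : E →ₗ[k] E →ₗ[k] G k E (p + 2) := P1.compr₂ σ1
  have hP' : ∀ e e', P' e e' ∈ D R X (p + 2) := fun e e' => (hσ1 _ (hP1 e e')).1
  have hP'u : ∀ e e', cur k E (P' e e') u = P1 e e' := fun e e' => (hσ1 _ (hP1 e e')).2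
  have hP'R : InR R P' := by
    intro φ
    have e : P'.compr₂ φ = P1.compr₂ (φ ∘ₗ σ1) := by
      ext a b; rfl
    rw [e]; exact hP1R _
  let T0 : E →ₗ[k] E →ₗ[k] G k E (p + 2) := T
  let C0 : E →ₗ[k] E →ₗ[k] G k E (p + 2) := CS S'
  let T' : E →ₗ[k] E →ₗ[k] G k E (p + 2) := T0 + (-1 : k) • C0 + (-1 : k) • P'
  have hT'e : ∀ e e', T' e e' = T e e' - cur k E (S' e') e - P' e e' := by
    intro e e'
    show T e e' + (-1 : k) • cur k E (S' e') e + (-1 : k) • P' e e' = _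
    module
  have hT'X : ∀ e e', T' e e' ∈ D R X (p + 2) := by
    intro e e'
    rw [hT'e]
    exact Submodule.sub_mem _ (Submodule.sub_mem _ (hT e e') ((hS' e').1 e)) (hP' e e')
  have hT'u : ∀ e e', cur k E (T' e e') u = 0 := by
    intro e e'
    have h := hTS e e'
    rw [LinearMap.compr₂_apply, evv_apply] at h
    rw [hT'e, map_sub, map_sub, LinearMap.sub_apply, LinearMap.sub_apply, hS'eu, hP'u, h]
    abel
  have hT'H : ∀ e e', T' e e' ∈ D R (Hh X u) (p + 2) := fun e e' =>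
    hKIL hALT k E R X u (p + 1) (T' e e') hR (hT'X e e') (hT'u e e')
  have hC' : ∀ φ : G k E (p + 1) →ₗ[k] k, Cyc R (fun a e e' => φ (cur k E (T' e e') a)) := by
    intro φ
    obtain ⟨τ₁, τ₂, h1, h2, h3⟩ := hC φ
    refine ⟨τ₁ + Bg S' φ, τ₂ + (-1 : k) • Cf P' φ, ?_, ?_, ?_⟩
    · intro a e e'
      have ha := h1 a e e'
      have hs := (hALT k E R X (p + 1) (S' e') hR (hS' e')).2 e a
      simp only [LinearMap.add_apply, LinearMap.smul_apply, Bg_apply, Cf_apply]
      rw [hT'e, map_sub, map_sub, LinearMap.sub_apply, LinearMap.sub_apply, map_sub, map_sub, hs,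
        map_neg]
      simp only [] at ha
      rw [ha]; ring
    · intro e'
      have e1 : (τ₁ + Bg S' φ).compr₂ (LinearMap.applyₗ e') =
          τ₁.compr₂ (LinearMap.applyₗ e') + (cc k E (S' e')).compr₂ φ := by
        ext a e
        rfl
      rw [e1]
      exact R.add_mem (h2 e') ((hS' e').2 φ)
    · intro a
      have e1 : (τ₂ + (-1 : k) • Cf P' φ) a = τ₂ a + (-1 : k) • P'.compr₂ (φ ∘ₗ evv a) := rfl
      rw [e1]
      exact R.add_mem (h3 a) (R.smul_mem _ (hP'R _))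
  obtain ⟨S2, P2, hS2, hP2, hP2R, hTS2⟩ := hH T' hT'H hC'
  have hle : Hh X u ≤ X := inf_le_left
  refine ⟨S' + S2, P' + P2, ?_, ?_, InR_add hP'R hP2R, ?_⟩
  · intro e
    rw [LinearMap.add_apply]
    exact Submodule.add_mem _ (hS' e) (hMONO k E R _ _ _ hle (hS2 e))
  · intro e e'
    rw [LinearMap.add_apply, LinearMap.add_apply]
    exact Submodule.add_mem _ (hP' e e') (hMONO k E R _ _ _ hle (hP2 e e'))
  · intro e e'
    have h := hTS2 e e'
    rw [hT'e] at h
    rw [LinearMap.add_apply, LinearMap.add_apply, LinearMap.add_apply, map_add, LinearMap.add_apply]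
    have h2 : T e e' = (T e e' - cur k E (S' e') e - P' e e') + cur k E (S' e') e + P' e e' := by abel
    rw [h2, h]; abel

end Pool.Agent.W735.BK.EXS
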